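import Pool.Agent.H8.AV3.Stmts5

/-!
# Board `av3c`, module HNS3: good points lift, in infinitely many ways
-/

set_option autoImplicit false

namespace Pool.Agent.H1.AV3C

open Polynomial Matrix Pool.AVR Pool.AV3 WeierstrassCurve.Affine

namespace HNS3

section Hensel

variable {R : Type} [CommRing R] [HenselianLocalRing R]

/-- Hensel for cubic polynomials that need not be monic. -/
theorem hensel_cubic (b0 b1 b2 b3 : R) (h0 : b0 ∈ IsLocalRing.maximalIdeal R) (h1 : IsUnit b1) :
    ∃ X ∈ IsLocalRing.maximalIdeal R, b0 + b1 * X + b2 * X ^ 2 + b3 * X ^ 3 = 0 := by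
  obtain ⟨u, hu⟩ := h1.exists_right_inv
  let f : R[X] := X ^ 3 + (-X ^ 2 + C (b2 * b0 * u ^ 2) * X - C (b3 * b0 ^ 2 * u ^ 3))
  have hf : f.Monic := by
    apply monic_X_pow_add
    compute_degree!
  have he : ∀ z : R, f.eval z = z ^ 3 - z ^ 2 + b2 * b0 * u ^ 2 * z - b3 * b0 ^ 2 * u ^ 3 := by
    intro z
    simp only [f, eval_add, eval_sub, eval_neg, eval_mul, eval_pow, eval_X, eval_C]
    ring
  have hd : f.derivative.eval 1 = 1 + b2 * b0 * u ^ 2 := by
    simp only [f, derivative_add, derivative_sub, derivative_neg, derivative_mul, derivative_pow,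
      derivative_X, derivative_C, eval_add, eval_sub, eval_neg, eval_mul, eval_pow, eval_X, eval_C,
      eval_one, eval_zero, map_natCast, eval_natCast]
    norm_num
    ring
  have hm1 : f.eval 1 ∈ IsLocalRing.maximalIdeal R := by
    rw [he]
    have : (1 : R) ^ 3 - 1 ^ 2 + b2 * b0 * u ^ 2 * 1 - b3 * b0 ^ 2 * u ^ 3 =
        (b2 * u ^ 2 - b3 * b0 * u ^ 3) * b0 := by ring
    rw [this]
    exact Ideal.mul_mem_left _ _ h0
  have hm2 : IsUnit (f.derivative.eval 1) := by
    rw [hd]
    by_contra h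
    have h2 : 1 + b2 * b0 * u ^ 2 ∈ IsLocalRing.maximalIdeal R := h
    have h3 : b2 * b0 * u ^ 2 ∈ IsLocalRing.maximalIdeal R := by
      have : b2 * b0 * u ^ 2 = (b2 * u ^ 2) * b0 := by ring
      rw [this]
      exact Ideal.mul_mem_left _ _ h0
    have h4 := Ideal.sub_mem _ h2 h3
    rw [add_sub_cancel_right] at h4
    exact (Ideal.ne_top_iff_one _).1 (IsLocalRing.maximalIdeal.isMaximal R).ne_top h4
  obtain ⟨z, hz, hz1⟩ := HenselianLocalRing.is_henselian f hf 1 hm1 hm2
  have hzu : IsUnit z := by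
    by_contra h
    have h2 : z ∈ IsLocalRing.maximalIdeal R := h
    have h4 := Ideal.sub_mem _ h2 hz1
    rw [sub_sub_cancel] at h4
    exact (Ideal.ne_top_iff_one _).1 (IsLocalRing.maximalIdeal.isMaximal R).ne_top h4
  obtain ⟨w, hw⟩ := hzu.exists_right_inv
  refine ⟨-(u * w) * b0, Ideal.mul_mem_left _ _ h0, ?_⟩
  have hz2 : z ^ 3 - z ^ 2 + b2 * b0 * u ^ 2 * z - b3 * b0 ^ 2 * u ^ 3 = 0 := by
    rw [← he]
    exact hz
  -- `b0 w³ (z³ - z² + ...)`
  have key : b0 + b1 * (-(u * w) * b0) + b2 * (-(u * w) * b0) ^ 2 + b3 * (-(u * w) * b0) ^ 3 =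
      b0 * w ^ 3 * (z ^ 3 - z ^ 2 + b2 * b0 * u ^ 2 * z - b3 * b0 ^ 2 * u ^ 3) := by
    have e1 : w ^ 3 * z ^ 3 = 1 := by rw [← mul_pow, mul_comm, hw, one_pow]
    have e2 : w ^ 3 * z ^ 2 = w := by
      calc w ^ 3 * z ^ 2 = (z * w) ^ 2 * w := by ring
        _ = w := by rw [hw]; ring
    have e3 : w ^ 3 * z = w ^ 2 := by
      calc w ^ 3 * z = (z * w) * w ^ 2 := by ring
        _ = w ^ 2 := by rw [hw]; ring
    calc _ = b0 - (b1 * u) * w * b0 + b2 * u ^ 2 * w ^ 2 * b0 ^ 2 - b3 * u ^ 3 * w ^ 3 * b0 ^ 3 := by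
          ring
      _ = b0 * (w ^ 3 * z ^ 3) - b0 * (w ^ 3 * z ^ 2) + b2 * b0 ^ 2 * u ^ 2 * (w ^ 3 * z) -
          b3 * b0 ^ 3 * u ^ 3 * w ^ 3 := by
          rw [hu, e1, e2, e3]
          ring
      _ = _ := by ring
  rw [key, hz2, mul_zero]

/-- A point modulo the maximal ideal, moved along a transversal direction. -/
theorem lift_dir (c : Fin 10 → R) (v u : Fin 3 → R)
    (h0 : tev c v ∈ IsLocalRing.maximalIdeal R) (h1 : IsUnit (tder c v u)) :
    ∃ t ∈ IsLocalRing.maximalIdeal R, tev c (fun i => v i + t * u i) = 0 := by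
  obtain ⟨t, ht, h⟩ := hensel_cubic (tev c v) (tder c v u) (tder c u v) (tev c u) h0 h1
  refine ⟨t, ht, ?_⟩
  rw [← h]
  simp only [tev, tder]
  ring

theorem tder_corr {R : Type} [CommRing R] (c : Fin 10 → R) (v w u : Fin 3 → R) (r : R) :
    tder c v (fun i => w i - r * u i) = tder c v w - r * tder c v u := by
  simp only [tder]
  ring

end Hensel

section FieldIdx

variable {K : Type} [Field K]

theorem tder_expand (c : Fin 10 → K) (v w : Fin 3 → K) :
    tder c v w = w 0 * tder c v (Pi.single 0 1) + w 1 * tder c v (Pi.single 1 1) +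
      w 2 * tder c v (Pi.single 2 1) := by
  have e01 : (Pi.single 0 1 : Fin 3 → K) 1 = 0 := by simp
  have e02 : (Pi.single 0 1 : Fin 3 → K) 2 = 0 := by simp
  have e10 : (Pi.single 1 1 : Fin 3 → K) 0 = 0 := by simp
  have e12 : (Pi.single 1 1 : Fin 3 → K) 2 = 0 := by simp
  have e20 : (Pi.single 2 1 : Fin 3 → K) 0 = 0 := by simp
  have e21 : (Pi.single 2 1 : Fin 3 → K) 1 = 0 := by simp
  simp only [tder, e01, e02, e10, e12, e20, e21, Pi.single_eq_same]
  ring

theorem idx (c : Fin 10 → K) (v : Fin 3 → K) (h0 : tev c v = 0) (h1 : ∃ w, tder c v w ≠ 0) :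
    ∃ j k l : Fin 3, k ≠ j ∧ l ≠ j ∧ l ≠ k ∧ tder c v (Pi.single j 1) ≠ 0 ∧ v k ≠ 0 := by
  obtain ⟨w, hw⟩ := h1
  have hv : v ≠ 0 := by
    rintro rfl
    apply hw
    simp [tder]
  have he : v 0 * tder c v (Pi.single 0 1) + v 1 * tder c v (Pi.single 1 1) +
      v 2 * tder c v (Pi.single 2 1) = 0 := by
    rw [← tder_expand, tder_self, h0, mul_zero]
  rw [tder_expand] at hw
  have hv3 : v 0 ≠ 0 ∨ v 1 ≠ 0 ∨ v 2 ≠ 0 := by
    by_contra hcon
    push Not at hcon
    apply hv
    funext i
    fin_cases i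
    · exact hcon.1
    · exact hcon.2.1
    · exact hcon.2.2
  by_cases hp0 : tder c v (Pi.single 0 1) = 0
  · by_cases hp1 : tder c v (Pi.single 1 1) = 0
    · by_cases hp2 : tder c v (Pi.single 2 1) = 0
      · exfalso
        apply hw
        rw [hp0, hp1, hp2]
        ring
      · rw [hp0, hp1, mul_zero, mul_zero, zero_add, zero_add] at he
        have hv2 : v 2 = 0 := (mul_eq_zero.1 he).resolve_right hp2
        rcases hv3 with h | h | h
        · exact ⟨2, 0, 1, by decide, by decide, by decide, hp2, h⟩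
        · exact ⟨2, 1, 0, by decide, by decide, by decide, hp2, h⟩
        · exact absurd hv2 h
    · by_cases h00 : v 0 = 0
      · by_cases h22 : v 2 = 0
        · rw [h00, h22, zero_mul, zero_mul, zero_add, add_zero] at he
          have hv1 : v 1 = 0 := (mul_eq_zero.1 he).resolve_right hp1
          rcases hv3 with h | h | h
          · exact absurd h00 h
          · exact absurd hv1 h
          · exact absurd h22 h
        · exact ⟨1, 2, 0, by decide, by decide, by decide, hp1, h22⟩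
      · exact ⟨1, 0, 2, by decide, by decide, by decide, hp1, h00⟩
  · by_cases h11 : v 1 = 0
    · by_cases h22 : v 2 = 0
      · rw [h11, h22, zero_mul, zero_mul, add_zero, add_zero] at he
        have hv1 : v 0 = 0 := (mul_eq_zero.1 he).resolve_right hp0
        rcases hv3 with h | h | h
        · exact absurd hv1 h
        · exact absurd h11 h
        · exact absurd h22 h
      · exact ⟨0, 2, 1, by decide, by decide, by decide, hp0, h22⟩
    · exact ⟨0, 1, 2, by decide, by decide, by decide, hp0, h11⟩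

end FieldIdx

section Loc

variable {L : Type} [Field L] {O : ValuationSubring L} {π : L}

theorem isUnit_iff' (x : O) (hx : x ≠ 0) : IsUnit x ↔ (x : L)⁻¹ ∈ O := by
  have hx' : (x : L) ≠ 0 := fun h => hx (Subtype.ext h)
  constructor
  · intro h
    obtain ⟨y, hy⟩ := h.exists_right_inv
    have h2 : (x : L) * (y : L) = 1 := by
      have := congrArg (fun z : O => (z : L)) hy
      simpa using this
    rw [inv_eq_of_mul_eq_one_right h2]
    exact y.2
  · intro h
    refine IsUnit.of_mul_eq_one (⟨(x : L)⁻¹, h⟩ : O) ?_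
    apply Subtype.ext
    show (x : L) * (x : L)⁻¹ = 1
    exact mul_inv_cancel₀ hx'

theorem mem_max (hL : AVS.Loc L O π) (x : O) :
    x ∈ IsLocalRing.maximalIdeal O ↔ (x : L) / π ∈ O := by
  by_cases hx : x = 0
  · subst hx
    simp
  · have hx' : (x : L) ≠ 0 := fun h => hx (Subtype.ext h)
    rw [← hL.unif (x : L) x.2 hx', ← isUnit_iff' x hx, IsLocalRing.mem_maximalIdeal]
    rfl

theorem infinite_O (hL : AVS.Loc L O π) : Infinite O := by
  by_contra h
  have hfin : Finite O := not_infinite_iff_finite.1 h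
  have hF := Finite.isField_of_domain O
  have hπ : (⟨π, hL.pi_mem⟩ : O) ≠ 0 := fun h => hL.pi_ne (congrArg Subtype.val h)
  obtain ⟨y, hy⟩ := hF.mul_inv_cancel hπ
  have h1 : IsUnit (⟨π, hL.pi_mem⟩ : O) := IsUnit.of_mul_eq_one y hy
  have h2 : (⟨π, hL.pi_mem⟩ : O) ∈ IsLocalRing.maximalIdeal O := by
    rw [mem_max hL]
    show π / π ∈ O
    rw [div_self hL.pi_ne]
    exact O.one_mem
  exact h2 h1

end Loc

end HNS3

open HNS3 in
theorem hns3_thm : HNS3Stmt := by
  intro L _ O π hL c v hc hG B hB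
  classical
  have := hL.hens
  have := infinite_O hL
  obtain ⟨hv, -, g1, ⟨w1, hw1, g2⟩, ⟨w2, hw2, g3, g4⟩⟩ := hG
  -- lifts to `O`
  let c' : Fin 10 → O := fun i => ⟨c i, hc i⟩
  let v' : Fin 3 → O := fun i => ⟨v i, hv i⟩
  let w1' : Fin 3 → O := fun i => ⟨w1 i, hw1 i⟩
  let w2' : Fin 3 → O := fun i => ⟨w2 i, hw2 i⟩
  let p : O := ⟨π, hL.pi_mem⟩
  have ctev : ∀ x : Fin 3 → O, ((tev c' x : O) : L) = tev c (fun i => (x i : L)) := by
    intro x
    exact Pool.AV3.map_tev O.subtype c' x
  have ctder : ∀ x y : Fin 3 → O, ((tder c' x y : O) : L) =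
      tder c (fun i => (x i : L)) (fun i => (y i : L)) := by
    intro x y
    exact Pool.AV3.map_tder O.subtype c' x y
  set m := IsLocalRing.maximalIdeal O with hm
  have hpm : p ∈ m := by
    rw [hm, mem_max hL]
    show π / π ∈ O
    rw [div_self hL.pi_ne]
    exact O.one_mem
  -- the residue field
  let ρ := IsLocalRing.residue O
  have hρ : ∀ x : O, ρ x = 0 ↔ x ∈ m := fun x => IsLocalRing.residue_eq_zero_iff x
  have rtev : ∀ x : Fin 3 → O, ρ (tev c' x) = tev (fun i => ρ (c' i)) (fun i => ρ (x i)) := by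
    intro x
    exact Pool.AV3.map_tev ρ c' x
  have rtder : ∀ x y : Fin 3 → O, ρ (tder c' x y) =
      tder (fun i => ρ (c' i)) (fun i => ρ (x i)) (fun i => ρ (y i)) := by
    intro x y
    exact Pool.AV3.map_tder ρ c' x y
  have G1 : tev (fun i => ρ (c' i)) (fun i => ρ (v' i)) = 0 := by
    rw [← rtev, hρ, hm, mem_max hL, ctev]
    exact g1
  have G2 : tder (fun i => ρ (c' i)) (fun i => ρ (v' i)) (fun i => ρ (w1' i)) ≠ 0 := by
    rw [← rtder, Ne, hρ, hm, mem_max hL, ctder]
    exact g2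
  have G3 : tder (fun i => ρ (c' i)) (fun i => ρ (v' i)) (fun i => ρ (w2' i)) = 0 := by
    rw [← rtder, hρ, hm, mem_max hL, ctder]
    exact g3
  have G4 : tev (fun i => ρ (c' i)) (fun i => ρ (w2' i)) ≠ 0 := by
    rw [← rtev, Ne, hρ, hm, mem_max hL, ctev]
    exact g4
  obtain ⟨j, k, l, hkj, hlj, hlk, hj, hk⟩ := idx _ _ G1 ⟨_, G2⟩
  have esing : ∀ i : Fin 3, (Pi.single j 1 : Fin 3 → IsLocalRing.ResidueField O) i =
      ρ ((Pi.single j 1 : Fin 3 → O) i) := by
    intro i
    by_cases h : i = j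
    · subst h
      simp
    · simp [Pi.single_eq_of_ne h]
  have hj' : ∀ x : Fin 3 → O, (∀ i, ρ (x i) = ρ (v' i)) →
      IsUnit (tder c' x (Pi.single j 1)) := by
    intro x hx
    by_contra h
    have h2 : tder c' x (Pi.single j 1) ∈ m := h
    rw [← hρ, rtder] at h2
    simp only [hx, ← esing] at h2
    exact hj h2
  -- the family of points
  have H : ∀ s : O, ∃ t ∈ m, tev c' (fun i => (v' i + (p * s) * (Pi.single l 1 : Fin 3 → O) i) +
      t * (Pi.single j 1 : Fin 3 → O) i) = 0 := by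
    intro s
    have hps : ρ p = 0 := (hρ p).2 hpm
    apply lift_dir
    · rw [← hm, ← hρ, rtev]
      simp only [map_add, map_mul, hps, zero_mul, add_zero]
      exact G1
    · apply hj'
      intro i
      simp only [map_add, map_mul, hps, zero_mul, add_zero]
  choose t ht hte using H
  let x : O → Fin 3 → O := fun s i => (v' i + (p * s) * (Pi.single l 1 : Fin 3 → O) i) +
      t s * (Pi.single j 1 : Fin 3 → O) i
  have hxe : ∀ s, tev c' (x s) = 0 := hte
  have hxρ : ∀ s i, ρ (x s i) = ρ (v' i) := by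
    intro s i
    have hps : ρ p = 0 := (hρ p).2 hpm
    have hts : ρ (t s) = 0 := (hρ _).2 (ht s)
    simp only [x, map_add, map_mul, hps, hts, zero_mul, add_zero]
  have hxk : ∀ s, x s k = v' k := by
    intro s
    simp only [x]
    rw [Pi.single_eq_of_ne hlk.symm, Pi.single_eq_of_ne hkj]
    ring
  have hxl : ∀ s, x s l = v' l + p * s := by
    intro s
    simp only [x]
    rw [Pi.single_eq_same, Pi.single_eq_of_ne hlj]
    ring
  have hvk : (v k : L) ≠ 0 := by
    intro h
    apply hk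
    have : v' k = 0 := Subtype.ext h
    show ρ (v' k) = 0
    rw [this, map_zero]
  -- the bad parameters
  let bad : Set O := ⋃ y ∈ B, {s : O | ∃ r : L, (fun i => (x s i : L)) = r • y}
  have hbad : bad.Finite := by
    refine hB.biUnion fun y _ => Set.Subsingleton.finite ?_
    rintro s ⟨r, hr⟩ s' ⟨r', hr'⟩
    have e1 := congrFun hr k
    have e1' := congrFun hr' k
    have e2 := congrFun hr l
    have e2' := congrFun hr' l
    simp only [Pi.smul_apply, smul_eq_mul] at e1 e1' e2 e2'
    rw [hxk] at e1 e1'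
    rw [hxl] at e2 e2'
    have hvk' : ((v' k : O) : L) ≠ 0 := hvk
    have hyk : y k ≠ 0 := by
      intro h
      rw [h, mul_zero] at e1
      exact hvk' e1
    have hrr : r = r' := mul_right_cancel₀ hyk (e1.symm.trans e1')
    subst hrr
    have e3 : v' l + p * s = v' l + p * s' := Subtype.ext (e2.trans e2'.symm)
    have e4 := add_left_cancel e3
    have hp : p ≠ 0 := fun h => hL.pi_ne (congrArg Subtype.val h)
    exact mul_left_cancel₀ hp e4
  obtain ⟨s, hs⟩ := hbad.infinite_compl.nonempty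
  refine ⟨fun i => (x s i : L), fun i => (x s i).2, ?_, ?_, ?_, ?_⟩
  · intro i
    have : x s i - v' i ∈ m := by
      rw [← hρ, map_sub, hxρ, sub_self]
    rw [hm, mem_max hL] at this
    exact this
  · rw [← ctev, hxe]
    rfl
  · have hu := hj' (x s) (hxρ s)
    refine ⟨?_, ⟨fun i => ((Pi.single j 1 : Fin 3 → O) i : L), ?_⟩, ?_⟩
    · rw [← ctev, hxe]
      rfl
    · rw [← ctder]
      intro h
      exact hu.ne_zero (Subtype.ext h)
    · obtain ⟨u, hu2⟩ := hu.exists_right_inv
      -- correct `w2`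
      let w' : Fin 3 → O := fun i => w2' i - (tder c' (x s) w2' * u) * (Pi.single j 1 : Fin 3 → O) i
      have e1 : tder c' (x s) w' = 0 := by
        have : tder c' (x s) w' = tder c' (x s) w2' -
            (tder c' (x s) w2' * u) * tder c' (x s) (Pi.single j 1) := tder_corr _ _ _ _ _
        rw [this, mul_assoc, mul_comm u, hu2, mul_one, sub_self]
      have e2 : ∀ i, ρ (w' i) = ρ (w2' i) := by
        intro i
        have : ρ (tder c' (x s) w2') = 0 := by
          rw [rtder]
          simp only [hxρ]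
          exact G3
        simp only [w', map_sub, map_mul, this, zero_mul, sub_zero]
      refine ⟨fun i => (w' i : L), ?_, ?_⟩
      · rw [← ctder, e1]
        rfl
      · rw [← ctev]
        intro h
        have h2 : tev c' w' = 0 := Subtype.ext h
        apply G4
        have h3 := congrArg ρ h2
        rw [rtev, map_zero] at h3
        simp only [e2] at h3
        exact h3
  · intro y hy r h
    apply hs
    simp only [bad, Set.mem_iUnion]
    exact ⟨y, hy, r, h⟩

end Pool.Agent.H1.AV3C
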